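import Mathlib

set_option autoImplicit false

namespace Pool.Agent.Results.MP_93ce62_an.PairsNoBAI

section Digraph

variable {L p R : ℕ}

/-- Vertices of the digraph: functions from cyclic words to `ZMod p`. -/
abbrev Vtx (L p R : ℕ) : Type := (ZMod L → Fin R) → ZMod p

/-- Cyclic shift of words. -/
def shift (w : ZMod L → Fin R) : ZMod L → Fin R := fun t => w (t + 1)

/-- Edge relation. -/
def Edge (z x : Vtx L p R) : Prop :=
  ∃ i : Fin R, ∀ w : ZMod L → Fin R, w 0 = i → z w = x (shift w) + 1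

theorem common (T : Finset (Vtx L p R)) (hT : T.card ≤ R) : ∃ z, ∀ x ∈ T, Edge z x := by
  classical
  have h0 : ∃ f : Fin R → Vtx L p R, ∀ x ∈ T, ∃ i, f i = x := by
    refine ⟨fun i => if h : i.val < T.card then (T.equivFin.symm ⟨i, h⟩ : Vtx L p R) else 0, ?_⟩
    intro x hx
    refine ⟨⟨(T.equivFin ⟨x, hx⟩).val, lt_of_lt_of_le (Fin.is_lt _) hT⟩, ?_⟩
    simp
  obtain ⟨f, hf⟩ := h0
  refine ⟨fun w => f (w 0) (shift w) + 1, fun x hx => ?_⟩
  obtain ⟨i, hi⟩ := hf x hx
  refine ⟨i, fun w hw => ?_⟩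
  show f (w 0) (shift w) + 1 = x (shift w) + 1
  rw [hw, hi]

theorem no_closed [NeZero L] {m : ℕ} (hm : m ∣ L) (hmp : (m : ZMod p) ≠ 0)
    (v : ℕ → Vtx L p R) (hv : ∀ j, Edge (v j) (v (j + 1))) (hper : ∀ j, v (j + m) = v j) :
    False := by
  classical
  obtain ⟨i0, _⟩ := hv 0
  let lab : Vtx L p R → Vtx L p R → Fin R := fun x y => if h : Edge x y then h.choose else i0
  have hlab : ∀ x y, Edge x y → ∀ w : ZMod L → Fin R, w 0 = lab x y → x w = y (shift w) + 1 := by
    intro x y h w hw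
    have : lab x y = h.choose := dif_pos h
    exact h.choose_spec w (hw.trans this)
  let c : ℕ → Fin R := fun j => lab (v j) (v (j + 1))
  have hc : Function.Periodic c m := by
    intro j
    show lab (v (j + m)) (v (j + m + 1)) = lab (v j) (v (j + 1))
    rw [hper j, show j + m + 1 = (j + 1) + m by ring, hper (j + 1)]
  obtain ⟨q, hq⟩ := hm
  have hcL : ∀ j t : ℕ, c (j + L * t) = c j := by
    intro j t
    have h1 := hc.nat_mul (q * t) j
    rw [← h1]
    congr 2
    rw [hq]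
    ring_nf
    push_cast
    ring
  let w : ℕ → ZMod L → Fin R := fun k t => c (t.val + k)
  have hshift : ∀ k, shift (w k) = w (k + 1) := by
    intro k
    funext t
    show c ((t + 1).val + k) = c (t.val + (k + 1))
    have h1 : (t + 1).val = (t.val + 1) % L := by
      rw [ZMod.val_add, ZMod.val_one_eq_one_mod, Nat.add_mod_mod]
    have h2 := Nat.mod_add_div (t.val + 1) L
    rw [h1, ← hcL ((t.val + 1) % L + k) ((t.val + 1) / L)]
    congr 1
    omega
  have hmain : ∀ k : ℕ, v 0 (w 0) = v k (w k) + (k : ZMod p) := by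
    intro k
    induction k with
    | zero => simp
    | succ k ih =>
      have h1 := hlab (v k) (v (k + 1)) (hv k) (w k) (by
        show c ((0 : ZMod L).val + k) = c k
        simp)
      rw [ih, h1, hshift k]
      push_cast
      ring
  have h2 := hmain m
  have h3 : v m = v 0 := by simpa using hper 0
  have h4 : w m = w 0 := by
    funext t
    show c (t.val + m) = c (t.val + 0)
    exact hc _
  rw [h3, h4] at h2
  exact hmp (by simpa using h2)

/-- A nonempty finite set of fewer than `g` vertices has a vertex without out-neighbour in it. -/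
theorem no_cycle [NeZero L] {g : ℕ} (hL : ∀ m, 1 ≤ m → m < g → m ∣ L)
    (hp : ∀ m : ℕ, 1 ≤ m → m < g → (m : ZMod p) ≠ 0) (X : Finset (Vtx L p R))
    (hne : X.Nonempty) (hcard : X.card < g) (hout : ∀ x ∈ X, ∃ y ∈ X, Edge x y) : False := by
  classical
  obtain ⟨x0, hx0⟩ := hne
  let σ : Vtx L p R → Vtx L p R := fun x => if h : x ∈ X then (hout x h).choose else x
  have hσ : ∀ x (h : x ∈ X), σ x ∈ X ∧ Edge x (σ x) := by
    intro x h
    have : σ x = (hout x h).choose := dif_pos h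
    rw [this]
    exact (hout x h).choose_spec
  let f : ℕ → Vtx L p R := fun j => σ^[j] x0
  have hfX : ∀ j, f j ∈ X := by
    intro j
    induction j with
    | zero => exact hx0
    | succ j ih =>
      show σ^[j + 1] x0 ∈ X
      rw [Function.iterate_succ_apply']
      exact (hσ _ ih).1
  have hfs : ∀ j, f (j + 1) = σ (f j) := fun j => Function.iterate_succ_apply' _ _ _
  have hpig : ∃ a ∈ Finset.range (X.card + 1), ∃ b ∈ Finset.range (X.card + 1), a ≠ b ∧ f a = f b :=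
    Finset.exists_ne_map_eq_of_card_lt_of_maps_to (by simp) (fun a _ => hfX a)
  have hpig2 : ∃ a b, a < b ∧ b ≤ X.card ∧ f a = f b := by
    obtain ⟨a, ha, b, hb, hab, he⟩ := hpig
    rw [Finset.mem_range] at ha hb
    rcases lt_or_gt_of_ne hab with h | h
    · exact ⟨a, b, h, by omega, he⟩
    · exact ⟨b, a, h, by omega, he.symm⟩
  obtain ⟨a, b, hab, hb, he⟩ := hpig2
  have hmg : b - a < g := by omega
  refine no_closed (hL (b - a) (by omega) hmg) (hp (b - a) (by omega) hmg) (fun j => f (a + j))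
    ?_ ?_
  · intro j
    show Edge (f (a + j)) (f (a + j + 1))
    rw [hfs]
    exact (hσ _ (hfX _)).2
  · intro j
    show f (a + (j + (b - a))) = f (a + j)
    induction j with
    | zero =>
      rw [show a + (0 + (b - a)) = b by omega, add_zero, he]
    | succ j ih =>
      rw [show a + (j + 1 + (b - a)) = (a + (j + (b - a))) + 1 by ring, hfs, ih, ← hfs]
      rfl

end Digraph

section Group

variable {L p R n : ℕ}

/-- The generating set of the finite group of all functions from the digraph to `ZMod n`. -/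
def gen (L p R n : ℕ) : Set (Vtx L p R → ZMod n) :=
  {γ | ∃ x, γ x = 1 ∧ ∀ y, y ≠ x → γ y ≠ 0 → Edge y x}

theorem sum_ne_zero [NeZero L] {g : ℕ} (hL : ∀ m, 1 ≤ m → m < g → m ∣ L)
    (hp : ∀ m : ℕ, 1 ≤ m → m < g → (m : ZMod p) ≠ 0)
    (hn : ∀ m : ℕ, 1 ≤ m → m < g → (m : ZMod n) ≠ 0)
    (l : List (Vtx L p R → ZMod n)) (hl : ∀ a ∈ l, a ∈ gen L p R n) (h1 : 1 ≤ l.length)
    (h2 : l.length < g) : l.sum ≠ 0 := by
  classical
  intro hsum
  let xf : (Vtx L p R → ZMod n) → Vtx L p R := fun γ =>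
    if h : γ ∈ gen L p R n then h.choose else 0
  have hxf : ∀ γ ∈ l, γ (xf γ) = 1 ∧ ∀ y, y ≠ xf γ → γ y ≠ 0 → Edge y (xf γ) := by
    intro γ hγ
    have h := hl γ hγ
    have : xf γ = h.choose := dif_pos h
    rw [this]
    exact h.choose_spec
  let X : Finset (Vtx L p R) := (l.map xf).toFinset
  have hXc : X.card < g := by
    have h3 : X.card ≤ (l.map xf).length := List.toFinset_card_le (l.map xf)
    rw [List.length_map] at h3
    omega
  have hXne : X.Nonempty := by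
    rcases l with _ | ⟨a, t⟩
    · simp at h1
    · exact ⟨xf a, by simp [X]⟩
  refine no_cycle hL hp X hXne hXc ?_
  intro x hx
  by_contra hcon
  push Not at hcon
  have hval : ∀ γ ∈ l, γ x = if xf γ = x then 1 else 0 := by
    intro γ hγ
    by_cases h : xf γ = x
    · rw [if_pos h, ← h]
      exact (hxf γ hγ).1
    · rw [if_neg h]
      by_contra h3
      exact hcon (xf γ) (by
        simp only [X, List.mem_toFinset, List.mem_map]
        exact ⟨γ, hγ, rfl⟩) ((hxf γ hγ).2 x (fun h4 => h h4.symm) h3)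
  have hcount : ∀ t : List (Vtx L p R → ZMod n), (∀ γ ∈ t, γ x = if xf γ = x then 1 else 0) →
      t.sum x = ((t.countP (fun γ => decide (xf γ = x)) : ℕ) : ZMod n) := by
    intro t
    induction t with
    | nil => intro _; simp
    | cons a t ih =>
      intro ht
      rw [List.sum_cons, Pi.add_apply, ih (fun γ hγ => ht γ (List.mem_cons_of_mem _ hγ)),
        ht a List.mem_cons_self, List.countP_cons]
      by_cases h : xf a = x
      · simp [h]
        ring
      · simp [h]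
  have h5 := hcount l hval
  rw [hsum] at h5
  have h6 : 1 ≤ l.countP (fun γ => decide (xf γ = x)) := by
    have : x ∈ (l.map xf).toFinset := hx
    rw [List.mem_toFinset, List.mem_map] at this
    obtain ⟨γ, hγ, hγx⟩ := this
    exact List.countP_pos_iff.mpr ⟨γ, hγ, by simp [hγx]⟩
  have h7 : l.countP (fun γ => decide (xf γ = x)) < g :=
    lt_of_le_of_lt List.countP_le_length h2
  exact hn _ h6 h7 h5.symm

theorem gen_div [NeZero L] {g : ℕ} (hg : 2 ≤ g) (hL : ∀ m, 1 ≤ m → m < g → m ∣ L)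
    (hp : ∀ m : ℕ, 1 ≤ m → m < g → (m : ZMod p) ≠ 0)
    (T : Finset (Vtx L p R → ZMod n)) (hT : T.card ≤ R) (hTG : ∀ γ ∈ T, γ ∈ gen L p R n) :
    ∃ δ ∈ gen L p R n, ∀ γ ∈ T, γ - δ ∈ gen L p R n := by
  classical
  let xf : (Vtx L p R → ZMod n) → Vtx L p R := fun γ =>
    if h : γ ∈ gen L p R n then h.choose else 0
  have hxf : ∀ γ ∈ T, γ (xf γ) = 1 ∧ ∀ y, y ≠ xf γ → γ y ≠ 0 → Edge y (xf γ) := by
    intro γ hγ
    have h := hTG γ hγ
    have : xf γ = h.choose := dif_pos h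
    rw [this]
    exact h.choose_spec
  obtain ⟨z, hz⟩ := common (T.image xf) (Finset.card_image_le.trans hT)
  have hloop : ∀ x : Vtx L p R, ¬ Edge x x := by
    intro x hx
    exact no_cycle hL hp {x} (Finset.singleton_nonempty x) (by rw [Finset.card_singleton]; omega)
      (fun y hy => ⟨x, Finset.mem_singleton_self x, by rw [Finset.mem_singleton.mp hy]; exact hx⟩)
  refine ⟨Pi.single z 1, ⟨z, by simp, ?_⟩, ?_⟩
  · intro y hy h
    exact absurd (by simp [hy]) h
  · intro γ hγ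
    have hzx : Edge z (xf γ) := hz _ (Finset.mem_image_of_mem _ hγ)
    have hne : xf γ ≠ z := by
      intro h
      rw [h] at hzx
      exact hloop z hzx
    refine ⟨xf γ, ?_, ?_⟩
    · rw [Pi.sub_apply, (hxf γ hγ).1, Pi.single_eq_of_ne hne, sub_zero]
    · intro y hy h
      by_cases hyz : y = z
      · rw [hyz]; exact hzx
      · rw [Pi.sub_apply, Pi.single_eq_of_ne hyz, sub_zero] at h
        exact (hxf γ hγ).2 y hy h

end Group

section Length

variable {Γ : Type} [AddCommGroup Γ]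

/-- `γ` is a sum of exactly `k` elements of `G`. -/
def IsRep (G : Set Γ) (k : ℕ) (γ : Γ) : Prop :=
  ∃ l : List Γ, l.length = k ∧ (∀ a ∈ l, a ∈ G) ∧ l.sum = γ

/-- Word length with respect to `G`, truncated at `g`. -/
noncomputable def len (G : Set Γ) (g : ℕ) (γ : Γ) : ℕ :=
  sInf {k : ℕ | 1 ≤ k ∧ (g ≤ k ∨ IsRep G k γ)}

variable {G : Set Γ} {g : ℕ}

theorem len_mem (G : Set Γ) (g : ℕ) (γ : Γ) :
    1 ≤ len G g γ ∧ (g ≤ len G g γ ∨ IsRep G (len G g γ) γ) :=
  Nat.sInf_mem (s := {k : ℕ | 1 ≤ k ∧ (g ≤ k ∨ IsRep G k γ)})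
    ⟨g + 1, by omega, Or.inl (by omega)⟩

theorem len_le {γ : Γ} {k : ℕ} (h1 : 1 ≤ k) (h2 : g ≤ k ∨ IsRep G k γ) : len G g γ ≤ k :=
  Nat.sInf_le ⟨h1, h2⟩

theorem len_add (γ δ : Γ) : len G g (γ + δ) ≤ len G g γ + len G g δ := by
  obtain ⟨h1, h2⟩ := len_mem G g γ
  obtain ⟨h3, h4⟩ := len_mem G g δ
  refine len_le (by omega) ?_
  rcases h2 with h2 | ⟨l, hl, hlG, hls⟩
  · left; omega
  rcases h4 with h4 | ⟨m, hm, hmG, hms⟩
  · left; omega
  right
  refine ⟨l ++ m, by rw [List.length_append, hl, hm], ?_, by rw [List.sum_append, hls, hms]⟩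
  intro a ha
  rcases List.mem_append.mp ha with h | h
  · exact hlG a h
  · exact hmG a h

theorem len_zero (hg : 1 ≤ g) (h : ∀ l : List Γ, (∀ a ∈ l, a ∈ G) → 1 ≤ l.length →
    l.length < g → l.sum ≠ 0) : len G g 0 = g := by
  apply le_antisymm (len_le hg (Or.inl le_rfl))
  obtain ⟨h1, h2⟩ := len_mem G g 0
  rcases h2 with h2 | ⟨l, hl, hlG, hls⟩
  · exact h2
  · by_contra hlt
    push Not at hlt
    exact h l hlG (by omega) (by omega) hls

theorem len_div {R : ℕ} (hg : 1 ≤ g) (h : ∀ T : Finset Γ, T.card ≤ R → (∀ γ ∈ T, γ ∈ G) →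
    ∃ δ ∈ G, ∀ γ ∈ T, γ - δ ∈ G) (T : Finset Γ) (hT : T.card ≤ R) :
    ∃ δ, len G g δ ≤ 1 ∧ ∀ γ ∈ T, len G g (γ - δ) ≤ len G g γ := by
  classical
  let hd : Γ → Γ := fun γ => if h : ∃ a ∈ G, IsRep G (len G g γ - 1) (γ - a) then h.choose else 0
  let T' : Finset Γ := (T.image hd).filter (fun a => a ∈ G)
  obtain ⟨δ, hδ, hδ2⟩ := h T' ((Finset.card_filter_le _ _).trans (Finset.card_image_le.trans hT))
    (fun γ hγ => (Finset.mem_filter.mp hγ).2)
  refine ⟨δ, len_le le_rfl (Or.inr ⟨[δ], rfl, by simpa using hδ, by simp⟩), ?_⟩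
  intro γ hγ
  obtain ⟨h1, h2⟩ := len_mem G g γ
  rcases h2 with h2 | ⟨l, hl, hlG, hls⟩
  · exact (len_le hg (Or.inl le_rfl)).trans h2
  have hex : ∃ a ∈ G, IsRep G (len G g γ - 1) (γ - a) := by
    rcases l with _ | ⟨a, t⟩
    · simp at hl; omega
    · refine ⟨a, hlG a List.mem_cons_self, t, ?_, fun b hb => hlG b (List.mem_cons_of_mem _ hb), ?_⟩
      · rw [List.length_cons] at hl; omega
      · rw [← hls, List.sum_cons]; abel
  have hhd : hd γ = hex.choose := dif_pos hex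
  obtain ⟨hG1, t, ht, htG, hts⟩ := hex.choose_spec
  rw [← hhd] at hG1 hts
  have hmem : hd γ ∈ T' := Finset.mem_filter.mpr ⟨Finset.mem_image_of_mem _ hγ, hG1⟩
  have h3 := hδ2 _ hmem
  refine len_le h1 (Or.inr ⟨(hd γ - δ) :: t, ?_, ?_, ?_⟩)
  · rw [List.length_cons, ht]; omega
  · intro b hb
    rcases List.mem_cons.mp hb with h | h
    · rw [h]; exact h3
    · exact htG b h
  · rw [List.sum_cons, hts]; abel

end Length

/-- The combinatorial input: a finite abelian group with a submultiplicative weight. -/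
structure Data where
  Γ : Type
  grp : AddCommGroup Γ
  fin : Fintype Γ
  ω : Γ → ℝ
  K : ℝ
  one_le : ∀ γ, 1 ≤ ω γ
  add_le : ∀ γ δ, ω (γ + δ) ≤ ω γ * ω δ
  zero_eq : ω 0 = K
  div : ∀ T : Finset Γ, (T.card : ℝ) ≤ 2 * K ^ 2 →
    ∃ δ, ω δ ≤ 2 ∧ ∀ γ ∈ T, ω (γ - δ) ≤ ω γ

attribute [instance] Data.grp Data.fin

theorem exists_data (g : ℕ) (hg : 2 ≤ g) : ∃ D : Data, D.K = 2 ^ g := by
  classical
  let L : ℕ := g.factorial
  let p : ℕ := g + 1
  let R : ℕ := 2 * 4 ^ g
  have : NeZero L := ⟨Nat.factorial_ne_zero g⟩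
  have : NeZero p := ⟨by omega⟩
  have hL : ∀ m, 1 ≤ m → m < g → m ∣ L := fun m h1 h2 => Nat.dvd_factorial (by omega) h2.le
  have hp : ∀ m : ℕ, 1 ≤ m → m < g → (m : ZMod p) ≠ 0 := by
    intro m h1 h2 h
    rw [ZMod.natCast_eq_zero_iff] at h
    have := Nat.le_of_dvd (by omega) h
    omega
  let Γ : Type := Vtx L p R → ZMod p
  let G : Set Γ := gen L p R p
  refine ⟨{ Γ := Γ, grp := inferInstanceAs (AddCommGroup (Vtx L p R → ZMod p)),
            fin := inferInstanceAs (Fintype (Vtx L p R → ZMod p)),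
            ω := fun γ => 2 ^ (len G g γ), K := 2 ^ g, one_le := ?_, add_le := ?_,
            zero_eq := ?_, div := ?_ }, rfl⟩
  · intro γ
    exact one_le_pow₀ (by norm_num)
  · intro γ δ
    rw [← pow_add]
    exact pow_le_pow_right₀ (by norm_num) (len_add γ δ)
  · show (2 : ℝ) ^ (len G g 0) = 2 ^ g
    rw [len_zero (by omega) (fun l hl h1 h2 => sum_ne_zero hL hp hp l hl h1 h2)]
  · intro T hT
    have hT2 : T.card ≤ R := by
      have : (T.card : ℝ) ≤ ((2 * 4 ^ g : ℕ) : ℝ) := by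
        refine hT.trans (le_of_eq ?_)
        push_cast
        rw [← pow_mul, mul_comm g 2, pow_mul]
        norm_num
      exact_mod_cast this
    obtain ⟨δ, h1, h2⟩ := len_div (G := G) (g := g) (R := R) (by omega)
      (fun T hT hTG => gen_div hg hL hp T hT hTG) T hT2
    refine ⟨δ, ?_, fun γ hγ => pow_le_pow_right₀ (by norm_num) (h2 γ hγ)⟩
    calc (2 : ℝ) ^ (len G g δ) ≤ 2 ^ 1 := pow_le_pow_right₀ (by norm_num) h1
      _ = 2 := pow_one 2


section FiniteNorm

open Finset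

variable (D : Data)

/-- The points of the finite algebra: the dual group. -/
abbrev Pt : Type := AddChar D.Γ ℂ

variable {D}

/-- Weighted `ℓ¹` norm of a coefficient family. -/
noncomputable def W (h : D.Γ → ℂ) : ℝ := ∑ γ, ‖h γ‖ * D.ω γ

/-- The function on the dual group with coefficients `h`. -/
noncomputable def T (h : D.Γ → ℂ) : Pt D → ℂ := fun s => ∑ γ, h γ * s γ

/-- The mean of the absolute value. -/
noncomputable def av (f : Pt D → ℂ) : ℝ := (∑ s, ‖f s‖) / (Fintype.card (Pt D) : ℝ)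

/-- The solid norm. -/
noncomputable def sol (f : Pt D → ℂ) : ℝ := max ‖f‖ (D.K * av f)

/-- The norm of the finite algebra. -/
noncomputable def N (f : Pt D → ℂ) : ℝ := ⨅ h : D.Γ → ℂ, (W h + sol (f - T h))

theorem K_pos : 0 < D.K := by
  have := D.one_le 0
  rw [D.zero_eq] at this
  linarith

theorem ω_pos (γ : D.Γ) : 0 < D.ω γ := lt_of_lt_of_le one_pos (D.one_le γ)

theorem card_pos' : (0 : ℝ) < (Fintype.card (Pt D) : ℝ) := by
  exact_mod_cast Fintype.card_pos

theorem W_nonneg (h : D.Γ → ℂ) : 0 ≤ W h :=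
  sum_nonneg fun γ _ => mul_nonneg (norm_nonneg _) (ω_pos γ).le

theorem W_add_le (h k : D.Γ → ℂ) : W (h + k) ≤ W h + W k := by
  unfold W
  rw [← sum_add_distrib]
  refine sum_le_sum fun γ _ => ?_
  rw [← add_mul]
  exact mul_le_mul_of_nonneg_right (norm_add_le _ _) (ω_pos γ).le

theorem W_smul (c : ℂ) (h : D.Γ → ℂ) : W (c • h) = ‖c‖ * W h := by
  unfold W
  rw [mul_sum]
  refine sum_congr rfl fun γ _ => ?_
  rw [Pi.smul_apply, norm_smul]
  ring

theorem T_add (h k : D.Γ → ℂ) : T (h + k) = T h + T k := by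
  funext s
  simp [T, add_mul, sum_add_distrib]

theorem T_smul (c : ℂ) (h : D.Γ → ℂ) : T (c • h) = c • T h := by
  funext s
  simp [T, mul_sum, mul_assoc]

theorem norm_char (s : Pt D) (γ : D.Γ) : ‖s γ‖ = 1 := s.norm_apply γ

theorem norm_T_le (h : D.Γ → ℂ) : ‖T h‖ ≤ W h := by
  rw [pi_norm_le_iff_of_nonneg (W_nonneg h)]
  intro s
  refine (norm_sum_le _ _).trans (sum_le_sum fun γ _ => ?_)
  rw [norm_mul, norm_char, mul_one]
  exact le_mul_of_one_le_right (norm_nonneg _) (D.one_le γ)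

/-- Convolution of coefficients. -/
noncomputable def conv (h k : D.Γ → ℂ) : D.Γ → ℂ := fun γ => ∑ δ, h δ * k (γ - δ)

theorem W_conv_le (h k : D.Γ → ℂ) : W (conv h k) ≤ W h * W k := by
  unfold W conv
  calc ∑ γ, ‖∑ δ, h δ * k (γ - δ)‖ * D.ω γ
      ≤ ∑ γ, ∑ δ, (‖h δ‖ * D.ω δ) * (‖k (γ - δ)‖ * D.ω (γ - δ)) := by
        refine sum_le_sum fun γ _ => ?_
        calc ‖∑ δ, h δ * k (γ - δ)‖ * D.ω γ ≤ (∑ δ, ‖h δ * k (γ - δ)‖) * D.ω γ :=
              mul_le_mul_of_nonneg_right (norm_sum_le _ _) (ω_pos γ).le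
          _ = ∑ δ, ‖h δ * k (γ - δ)‖ * D.ω γ := sum_mul _ _ _
          _ ≤ _ := by
            refine sum_le_sum fun δ _ => ?_
            have h1 : D.ω γ ≤ D.ω δ * D.ω (γ - δ) := by
              have := D.add_le δ (γ - δ)
              rwa [add_sub_cancel] at this
            rw [norm_mul]
            calc ‖h δ‖ * ‖k (γ - δ)‖ * D.ω γ ≤ ‖h δ‖ * ‖k (γ - δ)‖ * (D.ω δ * D.ω (γ - δ)) :=
                  mul_le_mul_of_nonneg_left h1 (by positivity)
              _ = _ := by ring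
    _ = ∑ δ, ∑ γ, (‖h δ‖ * D.ω δ) * (‖k (γ - δ)‖ * D.ω (γ - δ)) := sum_comm
    _ = ∑ δ, (‖h δ‖ * D.ω δ) * ∑ γ, ‖k γ‖ * D.ω γ := by
        refine sum_congr rfl fun δ _ => ?_
        rw [← mul_sum]
        congr 1
        exact Equiv.sum_comp (Equiv.subRight δ) (fun γ => ‖k γ‖ * D.ω γ)
    _ = _ := (sum_mul _ _ _).symm

theorem T_conv (h k : D.Γ → ℂ) : T (conv h k) = T h * T k := by
  funext s
  show ∑ γ, (∑ δ, h δ * k (γ - δ)) * s γ = (∑ γ, h γ * s γ) * (∑ γ, k γ * s γ)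
  calc ∑ γ, (∑ δ, h δ * k (γ - δ)) * s γ
      = ∑ γ, ∑ δ, (h δ * s δ) * (k (γ - δ) * s (γ - δ)) := by
        refine sum_congr rfl fun γ _ => ?_
        rw [sum_mul]
        refine sum_congr rfl fun δ _ => ?_
        have h1 : s γ = s δ * s (γ - δ) := by
          rw [← AddChar.map_add_eq_mul, add_sub_cancel]
        rw [h1]
        ring
    _ = ∑ δ, ∑ γ, (h δ * s δ) * (k (γ - δ) * s (γ - δ)) := sum_comm
    _ = ∑ δ, (h δ * s δ) * ∑ γ, k γ * s γ := by
        refine sum_congr rfl fun δ _ => ?_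
        rw [← mul_sum]
        congr 1
        exact Equiv.sum_comp (Equiv.subRight δ) (fun γ => k γ * s γ)
    _ = _ := (sum_mul _ _ _).symm

theorem parseval (h : D.Γ → ℂ) :
    ∑ s : Pt D, ‖T h s‖ ^ 2 = (Fintype.card D.Γ : ℝ) * ∑ γ, ‖h γ‖ ^ 2 := by
  classical
  have key : ∑ s : Pt D, (T h s * (starRingEnd ℂ) (T h s)) =
      (Fintype.card D.Γ : ℂ) * ∑ γ, h γ * (starRingEnd ℂ) (h γ) := by
    calc ∑ s : Pt D, (T h s * (starRingEnd ℂ) (T h s))
        = ∑ s : Pt D, ∑ γ, ∑ δ, (h γ * (starRingEnd ℂ) (h δ)) * s (γ - δ) := by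
          refine sum_congr rfl fun s _ => ?_
          unfold T
          rw [map_sum, sum_mul_sum]
          refine sum_congr rfl fun γ _ => sum_congr rfl fun δ _ => ?_
          rw [map_mul, ← AddChar.map_neg_eq_conj, sub_eq_add_neg, AddChar.map_add_eq_mul]
          ring
      _ = ∑ γ, ∑ δ, (h γ * (starRingEnd ℂ) (h δ)) * ∑ s : Pt D, s (γ - δ) := by
          rw [sum_comm]
          refine sum_congr rfl fun γ _ => ?_
          rw [sum_comm]
          refine sum_congr rfl fun δ _ => ?_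
          rw [mul_sum]
      _ = ∑ γ, (h γ * (starRingEnd ℂ) (h γ)) * (Fintype.card D.Γ : ℂ) := by
          refine sum_congr rfl fun γ _ => ?_
          rw [sum_eq_single γ]
          · rw [AddChar.sum_apply_eq_ite, if_pos (sub_self γ)]
          · intro δ _ hδ
            rw [AddChar.sum_apply_eq_ite, if_neg (sub_ne_zero.mpr hδ.symm), mul_zero]
          · intro hh
            exact absurd (mem_univ γ) hh
      _ = _ := by
          rw [← sum_mul, mul_comm]
  have h2 : ∀ z : ℂ, z * (starRingEnd ℂ) z = ((‖z‖ ^ 2 : ℝ) : ℂ) := by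
    intro z
    rw [Complex.mul_conj, Complex.normSq_eq_norm_sq]
  simp only [h2] at key
  exact_mod_cast key

theorem card_pt : (Fintype.card (Pt D) : ℝ) = (Fintype.card D.Γ : ℝ) := by
  have h := AddChar.card_eq (α := D.Γ)
  exact_mod_cast h

theorem av_nonneg (f : Pt D → ℂ) : 0 ≤ av f :=
  div_nonneg (sum_nonneg fun _ _ => norm_nonneg _) card_pos'.le

theorem av_T_sq_le (h : D.Γ → ℂ) : (av (T h)) ^ 2 ≤ ∑ γ, ‖h γ‖ ^ 2 := by
  have h1 := parseval h
  have h2 : (∑ s : Pt D, ‖T h s‖) ^ 2 ≤ (Fintype.card (Pt D) : ℝ) * ∑ s : Pt D, ‖T h s‖ ^ 2 := by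
    have := sq_sum_le_card_mul_sum_sq (s := (univ : Finset (Pt D))) (f := fun s => ‖T h s‖)
    simpa using this
  unfold av
  rw [div_pow, div_le_iff₀ (by have := card_pos' (D := D); positivity)]
  rw [h1, ← card_pt] at h2
  calc (∑ s : Pt D, ‖T h s‖) ^ 2 ≤ _ := h2
    _ = _ := by ring

theorem sol_nonneg (f : Pt D → ℂ) : 0 ≤ sol f := (norm_nonneg f).trans (le_max_left _ _)

theorem av_add_le (f k : Pt D → ℂ) : av (f + k) ≤ av f + av k := by
  unfold av
  rw [← add_div]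
  refine div_le_div_of_nonneg_right ?_ card_pos'.le
  rw [← sum_add_distrib]
  exact sum_le_sum fun s _ => norm_add_le _ _

theorem av_smul (c : ℂ) (f : Pt D → ℂ) : av (c • f) = ‖c‖ * av f := by
  unfold av
  rw [mul_div_assoc', mul_sum]
  congr 1
  refine sum_congr rfl fun s _ => ?_
  rw [Pi.smul_apply, norm_smul]

theorem av_mul_le (f k : Pt D → ℂ) : av (f * k) ≤ ‖f‖ * av k := by
  unfold av
  rw [mul_div_assoc', mul_sum]
  refine div_le_div_of_nonneg_right ?_ card_pos'.le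
  refine sum_le_sum fun s _ => ?_
  rw [Pi.mul_apply, norm_mul]
  exact mul_le_mul_of_nonneg_right (norm_le_pi_norm f s) (norm_nonneg _)

theorem sol_add_le (f k : Pt D → ℂ) : sol (f + k) ≤ sol f + sol k := by
  refine max_le ((norm_add_le _ _).trans (add_le_add (le_max_left _ _) (le_max_left _ _))) ?_
  calc D.K * av (f + k) ≤ D.K * (av f + av k) :=
        mul_le_mul_of_nonneg_left (av_add_le f k) K_pos.le
    _ = D.K * av f + D.K * av k := by ring
    _ ≤ _ := add_le_add (le_max_right _ _) (le_max_right _ _)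

theorem sol_smul (c : ℂ) (f : Pt D → ℂ) : sol (c • f) = ‖c‖ * sol f := by
  unfold sol
  rw [norm_smul, av_smul, mul_max_of_nonneg _ _ (norm_nonneg c)]
  congr 1
  ring

theorem sol_mul_le (f k : Pt D → ℂ) : sol (f * k) ≤ ‖f‖ * sol k := by
  refine max_le ((norm_mul_le _ _).trans
    (mul_le_mul_of_nonneg_left (le_max_left _ _) (norm_nonneg _))) ?_
  calc D.K * av (f * k) ≤ D.K * (‖f‖ * av k) :=
        mul_le_mul_of_nonneg_left (av_mul_le f k) K_pos.le
    _ = ‖f‖ * (D.K * av k) := by ring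
    _ ≤ _ := mul_le_mul_of_nonneg_left (le_max_right _ _) (norm_nonneg _)

theorem bdd (f : Pt D → ℂ) : BddBelow (Set.range fun h : D.Γ → ℂ => W h + sol (f - T h)) :=
  ⟨0, by rintro _ ⟨h, rfl⟩; exact add_nonneg (W_nonneg _) (sol_nonneg _)⟩

theorem N_le (f : Pt D → ℂ) (h : D.Γ → ℂ) : N f ≤ W h + sol (f - T h) := ciInf_le (bdd f) h

theorem N_le' (h : D.Γ → ℂ) (k : Pt D → ℂ) : N (T h + k) ≤ W h + sol k := by
  have := N_le (T h + k) h
  rwa [add_sub_cancel_left] at this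

theorem N_nonneg (f : Pt D → ℂ) : 0 ≤ N f :=
  le_ciInf fun _ => add_nonneg (W_nonneg _) (sol_nonneg _)

theorem exists_rep (f : Pt D → ℂ) {r : ℝ} (hr : N f < r) :
    ∃ (h : D.Γ → ℂ) (k : Pt D → ℂ), f = T h + k ∧ W h + sol k < r := by
  obtain ⟨h, hh⟩ := exists_lt_of_ciInf_lt hr
  exact ⟨h, f - T h, by abel, hh⟩

theorem N_add_le (f k : Pt D → ℂ) : N (f + k) ≤ N f + N k := by
  refine le_of_forall_pos_le_add fun ε hε => ?_
  obtain ⟨h1, k1, e1, l1⟩ := exists_rep f (show N f < N f + ε / 2 by linarith)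
  obtain ⟨h2, k2, e2, l2⟩ := exists_rep k (show N k < N k + ε / 2 by linarith)
  have h3 : f + k = T (h1 + h2) + (k1 + k2) := by
    conv_lhs => rw [e1, e2]
    rw [T_add]
    abel
  calc N (f + k) = N (T (h1 + h2) + (k1 + k2)) := by rw [h3]
    _ ≤ W (h1 + h2) + sol (k1 + k2) := N_le' _ _
    _ ≤ (W h1 + W h2) + (sol k1 + sol k2) := add_le_add (W_add_le _ _) (sol_add_le _ _)
    _ ≤ N f + N k + ε := by linarith

theorem N_smul_le (c : ℂ) (f : Pt D → ℂ) : N (c • f) ≤ ‖c‖ * N f := by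
  refine le_of_forall_pos_le_add fun ε hε => ?_
  have hc : 0 < ‖c‖ + 1 := by positivity
  obtain ⟨h1, k1, e1, l1⟩ := exists_rep f (show N f < N f + ε / (‖c‖ + 1) by
    have : 0 < ε / (‖c‖ + 1) := by positivity
    linarith)
  have h3 : c • f = T (c • h1) + c • k1 := by
    conv_lhs => rw [e1]
    rw [T_smul, smul_add]
  calc N (c • f) = N (T (c • h1) + c • k1) := by rw [h3]
    _ ≤ W (c • h1) + sol (c • k1) := N_le' _ _
    _ = ‖c‖ * (W h1 + sol k1) := by rw [W_smul, sol_smul]; ring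
    _ ≤ ‖c‖ * (N f + ε / (‖c‖ + 1)) := mul_le_mul_of_nonneg_left l1.le (norm_nonneg _)
    _ = ‖c‖ * N f + ε * (‖c‖ / (‖c‖ + 1)) := by ring
    _ ≤ ‖c‖ * N f + ε * 1 := by
        have : ‖c‖ / (‖c‖ + 1) ≤ 1 := by
          rw [div_le_one hc]
          linarith
        have h5 := mul_le_mul_of_nonneg_left this hε.le
        linarith
    _ = _ := by ring

theorem norm_le_N (f : Pt D → ℂ) : ‖f‖ ≤ N f := by
  refine le_of_forall_pos_le_add fun ε hε => ?_
  obtain ⟨h1, k1, e1, l1⟩ := exists_rep f (show N f < N f + ε by linarith)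
  calc ‖f‖ = ‖T h1 + k1‖ := by rw [← e1]
    _ ≤ ‖T h1‖ + ‖k1‖ := norm_add_le _ _
    _ ≤ W h1 + sol k1 := add_le_add (norm_T_le _) (le_max_left _ _)
    _ ≤ _ := l1.le

theorem N_zero : N (0 : Pt D → ℂ) = 0 := by
  apply le_antisymm _ (N_nonneg _)
  have := N_smul_le 0 (0 : Pt D → ℂ)
  simpa using this

theorem N_mul_le (f k : Pt D → ℂ) : N (f * k) ≤ N f * N k := by
  have key : ∀ ε : ℝ, 0 < ε → N (f * k) ≤ (N f + ε) * (N k + ε) := by
    intro ε hε
    obtain ⟨h1, k1, e1, l1⟩ := exists_rep f (show N f < N f + ε by linarith)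
    obtain ⟨h2, k2, e2, l2⟩ := exists_rep k (show N k < N k + ε by linarith)
    have h3 : f * k = T (conv h1 h2) + (T h1 * k2 + (T h2 * k1 + k1 * k2)) := by
      conv_lhs => rw [e1, e2]
      rw [T_conv]
      ring
    have h4 : sol (T h1 * k2 + (T h2 * k1 + k1 * k2)) ≤
        W h1 * sol k2 + (W h2 * sol k1 + sol k1 * sol k2) := by
      refine (sol_add_le _ _).trans (add_le_add ?_ ((sol_add_le _ _).trans (add_le_add ?_ ?_)))
      · exact (sol_mul_le _ _).trans (mul_le_mul_of_nonneg_right (norm_T_le _) (sol_nonneg _))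
      · exact (sol_mul_le _ _).trans (mul_le_mul_of_nonneg_right (norm_T_le _) (sol_nonneg _))
      · exact (sol_mul_le _ _).trans (mul_le_mul_of_nonneg_right (le_max_left _ _) (sol_nonneg _))
    calc N (f * k) = N (T (conv h1 h2) + (T h1 * k2 + (T h2 * k1 + k1 * k2))) := by rw [h3]
      _ ≤ W (conv h1 h2) + sol (T h1 * k2 + (T h2 * k1 + k1 * k2)) := N_le' _ _
      _ ≤ W h1 * W h2 + (W h1 * sol k2 + (W h2 * sol k1 + sol k1 * sol k2)) :=
          add_le_add (W_conv_le _ _) h4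
      _ = (W h1 + sol k1) * (W h2 + sol k2) := by ring
      _ ≤ (N f + ε) * (N k + ε) :=
          mul_le_mul l1.le l2.le (add_nonneg (W_nonneg _) (sol_nonneg _))
            (by have := N_nonneg f; linarith)
  have hlim : Filter.Tendsto (fun ε : ℝ => (N f + ε) * (N k + ε)) (nhdsWithin 0 (Set.Ioi 0))
      (nhds ((N f + 0) * (N k + 0))) := by
    apply Filter.Tendsto.mono_left _ nhdsWithin_le_nhds
    exact ((continuous_const.add continuous_id).mul (continuous_const.add continuous_id)).tendsto 0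
  rw [add_zero, add_zero] at hlim
  refine ge_of_tendsto hlim ?_
  filter_upwards [self_mem_nhdsWithin] with ε hε
  exact key ε hε

theorem K_le_N_one : D.K ≤ N (1 : Pt D → ℂ) := by
  classical
  refine le_ciInf fun h => ?_
  have hcard := card_pos' (D := D)
  have h1 : ∑ s : Pt D, (T h s) = (Fintype.card (Pt D) : ℂ) * h 0 := by
    unfold T
    rw [sum_comm]
    have : ∀ γ, ∑ s : Pt D, h γ * s γ = if γ = 0 then (Fintype.card D.Γ : ℂ) * h 0 else 0 := by
      intro γ
      rw [← mul_sum, AddChar.sum_apply_eq_ite]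
      by_cases hγ : γ = 0
      · simp [hγ, mul_comm]
      · simp [hγ]
    rw [sum_congr rfl fun γ _ => this γ, sum_ite_eq' univ (0 : D.Γ), if_pos (mem_univ _)]
    congr 1
    have := card_pt (D := D)
    exact_mod_cast this.symm
  have h2 : (Fintype.card (Pt D) : ℝ) ≤
      (Fintype.card (Pt D) : ℝ) * ‖h 0‖ + ∑ s : Pt D, ‖(1 - T h) s‖ := by
    have h3 : (Fintype.card (Pt D) : ℂ) = (Fintype.card (Pt D) : ℂ) * h 0 +
        ∑ s : Pt D, (1 - T h) s := by
      rw [← h1, ← sum_add_distrib]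
      simp
    calc (Fintype.card (Pt D) : ℝ) = ‖(Fintype.card (Pt D) : ℂ)‖ := by simp
      _ = ‖(Fintype.card (Pt D) : ℂ) * h 0 + ∑ s : Pt D, (1 - T h) s‖ := by rw [← h3]
      _ ≤ ‖(Fintype.card (Pt D) : ℂ) * h 0‖ + ‖∑ s : Pt D, (1 - T h) s‖ := norm_add_le _ _
      _ ≤ _ := by
        refine add_le_add ?_ (norm_sum_le _ _)
        rw [norm_mul]
        simp
  have h4 : 1 ≤ ‖h 0‖ + av (1 - T h) := by
    unfold av
    have h5 : (∑ s : Pt D, ‖(1 - T h) s‖) / (Fintype.card (Pt D) : ℝ) * (Fintype.card (Pt D) : ℝ) =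
        ∑ s : Pt D, ‖(1 - T h) s‖ := div_mul_cancel₀ _ hcard.ne'
    by_contra hlt
    push Not at hlt
    have := mul_lt_mul_of_pos_right hlt hcard
    rw [add_mul, h5] at this
    linarith
  calc D.K = D.K * 1 := (mul_one _).symm
    _ ≤ D.K * (‖h 0‖ + av (1 - T h)) := mul_le_mul_of_nonneg_left h4 K_pos.le
    _ = ‖h 0‖ * D.ω 0 + D.K * av (1 - T h) := by rw [D.zero_eq]; ring
    _ ≤ W h + sol (1 - T h) := by
        refine add_le_add ?_ (le_max_right _ _)
        unfold W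
        exact single_le_sum (f := fun γ => ‖h γ‖ * D.ω γ)
          (fun γ _ => mul_nonneg (norm_nonneg _) (ω_pos γ).le) (mem_univ 0)

/-- The unimodular function attached to a group element. -/
noncomputable def u (γ : D.Γ) : Pt D → ℂ := fun s => s γ

theorem u_mul_neg (γ : D.Γ) : u γ * u (-γ) = (1 : Pt D → ℂ) := by
  funext s
  show s γ * s (-γ) = 1
  rw [← AddChar.map_add_eq_mul, add_neg_cancel, AddChar.map_zero_eq_one]

theorem norm_u_le (γ : D.Γ) : ‖(u γ : Pt D → ℂ)‖ ≤ 1 := by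
  rw [pi_norm_le_iff_of_nonneg zero_le_one]
  intro s
  exact (norm_char s γ).le

theorem N_u_le (γ : D.Γ) : N (u γ : Pt D → ℂ) ≤ D.ω γ := by
  classical
  have h1 : (u γ : Pt D → ℂ) = T (Pi.single γ 1) + 0 := by
    funext s
    simp [u, T, Pi.single_apply]
  rw [h1]
  refine (N_le' _ _).trans ?_
  have h2 : sol (0 : Pt D → ℂ) = 0 := by
    simp [sol, av]
  have h3 : W (Pi.single γ (1 : ℂ)) = D.ω γ := by
    unfold W
    rw [sum_eq_single γ]
    · simp
    · intro δ _ hδ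
      rw [Pi.single_eq_of_ne hδ]
      simp
    · intro hh
      exact absurd (mem_univ γ) hh
  rw [h2, h3, add_zero]

theorem div_lemma (f : Pt D → ℂ) : ∃ A : Finset D.Γ, (A.card : ℝ) ≤ D.K ^ 2 ∧
    ∀ δ, (∀ γ ∈ A, D.ω (γ - δ) ≤ D.ω γ) → N (f * u (-δ)) ≤ 4 * N f := by
  classical
  rcases (N_nonneg f).eq_or_lt with h0 | h0
  · refine ⟨∅, by simp; positivity, fun δ _ => ?_⟩
    have h1 : ‖f‖ ≤ 0 := by rw [h0]; exact norm_le_N f
    have h2 : f = 0 := norm_le_zero_iff.mp h1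
    rw [h2, zero_mul, N_zero]
    simp
  set ρ := 2 * N f with hρ
  have hρpos : 0 < ρ := by positivity
  have hK := K_pos (D := D)
  obtain ⟨h, k, e, l⟩ := exists_rep f (show N f < ρ by linarith)
  have hW : W h ≤ ρ := by have := sol_nonneg k; linarith
  have hθ : 0 < ρ / D.K ^ 2 := by positivity
  let A : Finset D.Γ := univ.filter fun γ => ρ / D.K ^ 2 ≤ ‖h γ‖ * D.ω γ
  refine ⟨A, ?_, ?_⟩
  · have h1 : (A.card : ℝ) * (ρ / D.K ^ 2) ≤ W h := by
      calc (A.card : ℝ) * (ρ / D.K ^ 2) = ∑ _γ ∈ A, ρ / D.K ^ 2 := by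
            rw [sum_const, nsmul_eq_mul]
        _ ≤ ∑ γ ∈ A, ‖h γ‖ * D.ω γ := sum_le_sum fun γ hγ => (mem_filter.mp hγ).2
        _ ≤ W h := sum_le_sum_of_subset_of_nonneg (subset_univ _)
            fun γ _ _ => mul_nonneg (norm_nonneg _) (ω_pos γ).le
    have h2 : (A.card : ℝ) * (ρ / D.K ^ 2) ≤ ρ := h1.trans hW
    rw [mul_div_assoc', div_le_iff₀ (by positivity)] at h2
    have h3 : ρ * (A.card : ℝ) ≤ ρ * D.K ^ 2 := by linarith
    exact le_of_mul_le_mul_left h3 hρpos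
  · intro δ hδ
    let hA : D.Γ → ℂ := fun γ => if γ ∈ A then h γ else 0
    let hB : D.Γ → ℂ := fun γ => if γ ∈ A then 0 else h γ
    have hAB : h = hA + hB := by
      funext γ
      by_cases hγ : γ ∈ A <;> simp [hA, hB, hγ]
    let hC : D.Γ → ℂ := fun γ => hA (γ + δ)
    have hTC : T hA * u (-δ) = T hC := by
      funext s
      show (∑ γ, hA γ * s γ) * s (-δ) = ∑ γ, hA (γ + δ) * s γ
      rw [sum_mul, ← Equiv.sum_comp (Equiv.addRight δ) (fun γ => hA γ * s γ * s (-δ))]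
      refine sum_congr rfl fun γ _ => ?_
      show hA (γ + δ) * s (γ + δ) * s (-δ) = hA (γ + δ) * s γ
      rw [mul_assoc, ← AddChar.map_add_eq_mul, add_neg_cancel_right]
    have hWC : W hC ≤ W h := by
      unfold W
      rw [← Equiv.sum_comp (Equiv.subRight δ)]
      refine sum_le_sum fun γ _ => ?_
      show ‖hA (γ - δ + δ)‖ * D.ω (γ - δ) ≤ ‖h γ‖ * D.ω γ
      rw [sub_add_cancel]
      by_cases hγ : γ ∈ A
      · simp only [hA, if_pos hγ]
        exact mul_le_mul_of_nonneg_left (hδ γ hγ) (norm_nonneg _)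
      · simp only [hA, if_neg hγ, norm_zero, zero_mul]
        exact mul_nonneg (norm_nonneg _) (ω_pos γ).le
    have hBle : ∀ γ, ‖hB γ‖ * D.ω γ ≤ ‖h γ‖ * D.ω γ := by
      intro γ
      by_cases hγ : γ ∈ A
      · simp only [hB, if_pos hγ, norm_zero, zero_mul]
        exact mul_nonneg (norm_nonneg _) (ω_pos γ).le
      · simp only [hB, if_neg hγ]
        exact le_rfl
    have hBθ : ∀ γ, ‖hB γ‖ * D.ω γ ≤ ρ / D.K ^ 2 := by
      intro γ
      by_cases hγ : γ ∈ A
      · simp only [hB, if_pos hγ, norm_zero, zero_mul]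
        exact hθ.le
      · simp only [hB, if_neg hγ]
        by_contra hlt
        push Not at hlt
        exact hγ (mem_filter.mpr ⟨mem_univ _, hlt.le⟩)
    have hWB : W hB ≤ ρ := (sum_le_sum fun γ _ => hBle γ).trans hW
    have hsq : ∑ γ, ‖hB γ‖ ^ 2 ≤ (ρ / D.K) ^ 2 := by
      calc ∑ γ, ‖hB γ‖ ^ 2 ≤ ∑ γ, (ρ / D.K ^ 2) * (‖hB γ‖ * D.ω γ) := by
            refine sum_le_sum fun γ _ => ?_
            have h1 : ‖hB γ‖ ≤ ‖hB γ‖ * D.ω γ :=
              le_mul_of_one_le_right (norm_nonneg _) (D.one_le γ)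
            calc ‖hB γ‖ ^ 2 = ‖hB γ‖ * ‖hB γ‖ := sq _
              _ ≤ (ρ / D.K ^ 2) * (‖hB γ‖ * D.ω γ) :=
                mul_le_mul (h1.trans (hBθ γ)) h1 (norm_nonneg _) hθ.le
        _ = (ρ / D.K ^ 2) * W hB := (mul_sum _ _ _).symm
        _ ≤ (ρ / D.K ^ 2) * ρ := mul_le_mul_of_nonneg_left hWB hθ.le
        _ = _ := by ring
    have hav : av (T hB) ≤ ρ / D.K :=
      abs_le_of_sq_le_sq' ((av_T_sq_le hB).trans hsq) (by positivity) |>.2
    have hsolB : sol (T hB) ≤ ρ := by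
      refine max_le ((norm_T_le _).trans hWB) ?_
      calc D.K * av (T hB) ≤ D.K * (ρ / D.K) := mul_le_mul_of_nonneg_left hav hK.le
        _ = ρ := by field_simp
    have h6 : f * u (-δ) = T hC + (u (-δ) * (T hB + k)) := by
      conv_lhs => rw [e, hAB, T_add]
      rw [← hTC]
      ring
    calc N (f * u (-δ)) = N (T hC + (u (-δ) * (T hB + k))) := by rw [h6]
      _ ≤ W hC + sol (u (-δ) * (T hB + k)) := N_le' _ _
      _ ≤ W h + (ρ + sol k) := by
          refine add_le_add hWC ((sol_mul_le _ _).trans ?_)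
          calc ‖(u (-δ) : Pt D → ℂ)‖ * sol (T hB + k) ≤ 1 * (sol (T hB) + sol k) :=
                mul_le_mul (norm_u_le _) (sol_add_le _ _) (sol_nonneg _) zero_le_one
            _ ≤ ρ + sol k := by rw [one_mul]; linarith
      _ ≤ 2 * ρ := by linarith
      _ = 4 * N f := by rw [hρ]; ring

/-- Uniform factorization of pairs in the finite algebra. -/
theorem pair_factor (f₁ f₂ : Pt D → ℂ) : ∃ b c₁ c₂ : Pt D → ℂ, N b ≤ 2 ∧
    f₁ = b * c₁ ∧ f₂ = b * c₂ ∧ N c₁ ≤ 4 * N f₁ ∧ N c₂ ≤ 4 * N f₂ := by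
  classical
  obtain ⟨A₁, hA₁, h₁⟩ := div_lemma f₁
  obtain ⟨A₂, hA₂, h₂⟩ := div_lemma f₂
  obtain ⟨δ, hδ, hδA⟩ := D.div (A₁ ∪ A₂) (by
    have : ((A₁ ∪ A₂).card : ℝ) ≤ A₁.card + A₂.card := by exact_mod_cast card_union_le _ _
    linarith)
  have hb : ∀ f : Pt D → ℂ, f = u δ * (f * u (-δ)) := by
    intro f
    calc f = (u δ * u (-δ)) * f := by rw [u_mul_neg, one_mul]
      _ = _ := by ring
  exact ⟨u δ, f₁ * u (-δ), f₂ * u (-δ), (N_u_le δ).trans hδ, hb f₁, hb f₂,
    h₁ δ fun γ hγ => hδA γ (mem_union_left _ hγ), h₂ δ fun γ hγ => hδA γ (mem_union_right _ hγ)⟩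

end FiniteNorm


section Instances

/-- The finite-dimensional algebra of all functions on the dual group, normed by `N`. -/
def Alg (D : Data) : Type := Pt D → ℂ

variable (D : Data)

noncomputable instance instCommRing : CommRing (Alg D) := inferInstanceAs (CommRing (Pt D → ℂ))

noncomputable instance instAlgebra : Algebra ℂ (Alg D) :=
  inferInstanceAs (Algebra ℂ (Pt D → ℂ))

/-- `N` as an additive group norm. -/
noncomputable def addNorm : AddGroupNorm (Alg D) where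
  toFun := fun f => N (D := D) f
  map_zero' := N_zero
  add_le' := N_add_le
  neg' := by
    intro f
    have h : ∀ f : Pt D → ℂ, N (-f) ≤ N f := by
      intro f
      have := N_smul_le (-1) f
      simpa using this
    have h2 : ∀ f : Pt D → ℂ, N (-f) = N f := fun f =>
      le_antisymm (h f) (by simpa using h (-f))
    exact h2 f
  eq_zero_of_map_eq_zero' := by
    intro f hf
    have h1 : ‖(show Pt D → ℂ from f)‖ ≤ 0 := by
      rw [← show N (D := D) f = 0 from hf]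
      exact norm_le_N _
    exact norm_le_zero_iff.mp h1

noncomputable instance instNormedAddCommGroup : NormedAddCommGroup (Alg D) :=
  (addNorm D).toNormedAddCommGroup

theorem norm_def (f : Alg D) : ‖f‖ = N (D := D) f := rfl

noncomputable instance instNonUnitalNormedCommRing : NonUnitalNormedCommRing (Alg D) :=
  { instCommRing D, instNormedAddCommGroup D with
    norm_mul_le := fun f g => N_mul_le (D := D) f g }

noncomputable instance instNormedSpace : NormedSpace ℂ (Alg D) :=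
  { (inferInstance : Module ℂ (Alg D)) with
    norm_smul_le := fun c f => N_smul_le (D := D) c f }

instance instIsScalarTower : IsScalarTower ℂ (Alg D) (Alg D) :=
  ⟨fun r f g => smul_mul_assoc r f g⟩

instance instSMulCommClass : SMulCommClass ℂ (Alg D) (Alg D) :=
  ⟨fun r f g => (mul_smul_comm r f g).symm⟩

instance instFiniteDimensional : FiniteDimensional ℂ (Alg D) :=
  inferInstanceAs (FiniteDimensional ℂ (Pt D → ℂ))

instance instCompleteSpace : CompleteSpace (Alg D) := FiniteDimensional.complete ℂ (Alg D)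

end Instances


section CZero

open Filter Topology

open scoped ENNReal

variable (D : ℕ → Data)

/-- The `ℓ^∞` sum of the finite-dimensional algebras. -/
abbrev Big : Type := lp (fun k => Alg (D k)) ∞

/-- The `c₀` sum of the finite-dimensional algebras. -/
noncomputable def czero : NonUnitalSubalgebra ℂ (Big D) where
  carrier := {a | Tendsto (fun k => ‖a k‖) atTop (𝓝 0)}
  zero_mem' := by
    show Tendsto (fun k => ‖(0 : Big D) k‖) atTop (𝓝 0)
    simp
  add_mem' := by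
    intro a b ha hb
    have ha' : Tendsto (fun k => ‖a k‖) atTop (𝓝 0) := ha
    have hb' : Tendsto (fun k => ‖b k‖) atTop (𝓝 0) := hb
    have h := ha'.add hb'
    rw [add_zero] at h
    exact squeeze_zero (fun k => norm_nonneg _) (fun k => norm_add_le (a k) (b k)) h
  mul_mem' := by
    intro a b ha hb
    have ha' : Tendsto (fun k => ‖a k‖) atTop (𝓝 0) := ha
    have hb' : Tendsto (fun k => ‖b k‖) atTop (𝓝 0) := hb
    have h := ha'.mul hb'
    rw [mul_zero] at h
    exact squeeze_zero (fun k => norm_nonneg _) (fun k => norm_mul_le (a k) (b k)) h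
  smul_mem' := by
    intro c a ha
    have ha' : Tendsto (fun k => ‖a k‖) atTop (𝓝 0) := ha
    have h := ha'.const_mul ‖c‖
    rw [mul_zero] at h
    exact squeeze_zero (fun k => norm_nonneg _) (fun k => norm_smul_le c (a k)) h

variable {D}

theorem mem_czero {a : Big D} : a ∈ czero D ↔ Tendsto (fun k => ‖a k‖) atTop (𝓝 0) := Iff.rfl

theorem norm_coord_le (a : czero D) (k : ℕ) : ‖(a : Big D) k‖ ≤ ‖a‖ :=
  lp.norm_apply_le_norm ENNReal.top_ne_zero (a : Big D) k

theorem isClosed_czero : IsClosed ((czero D : NonUnitalSubalgebra ℂ (Big D)) : Set (Big D)) := by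
  apply IsSeqClosed.isClosed
  intro x y hx hxy
  show Tendsto (fun k => ‖y k‖) atTop (𝓝 0)
  rw [Metric.tendsto_atTop]
  intro ε hε
  obtain ⟨n, hn⟩ := (Metric.tendsto_atTop.mp hxy) (ε / 2) (by positivity)
  have hn' := hn n le_rfl
  rw [dist_eq_norm] at hn'
  have hxn : Tendsto (fun k => ‖(x n) k‖) atTop (𝓝 0) := hx n
  obtain ⟨m, hm⟩ := (Metric.tendsto_atTop.mp hxn) (ε / 2) (by positivity)
  refine ⟨m, fun k hk => ?_⟩
  have h1 := hm k hk
  rw [Real.dist_eq, sub_zero, abs_of_nonneg (norm_nonneg _)] at h1 ⊢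
  have h2 : ‖(x n - y) k‖ ≤ ‖x n - y‖ := lp.norm_apply_le_norm ENNReal.top_ne_zero (x n - y) k
  have h3 : y k = (x n) k - (x n - y) k := by
    rw [lp.coeFn_sub, Pi.sub_apply]
    abel
  rw [h3]
  exact lt_of_le_of_lt (norm_sub_le _ _) (by linarith)

noncomputable instance instRingCzero : NonUnitalNormedCommRing (czero D) :=
  NonUnitalSubalgebra.nonUnitalNormedCommRing (czero D)

noncomputable instance instModuleCzero : Module ℂ (czero D) :=
  NonUnitalSubalgebra.instModule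

noncomputable instance instSpaceCzero : NormedSpace ℂ (czero D) :=
  { instModuleCzero with
    norm_smul_le := fun c a => norm_smul_le c (a : Big D) }

instance instTowerCzero : IsScalarTower ℂ (czero D) (czero D) :=
  ⟨fun r f g => Subtype.ext (smul_mul_assoc r (f : Big D) (g : Big D))⟩

instance instCommCzero : SMulCommClass ℂ (czero D) (czero D) :=
  ⟨fun r f g => Subtype.ext (mul_smul_comm r (f : Big D) (g : Big D)).symm⟩

instance instCompleteCzero : CompleteSpace (czero D) :=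
  (isClosed_czero (D := D)).completeSpace_coe

/-- The element supported at one index. -/
noncomputable def sing (k : ℕ) (f : Alg (D k)) : czero D :=
  ⟨lp.single ∞ k f, by
    rw [mem_czero]
    apply tendsto_const_nhds.congr'
    filter_upwards [eventually_gt_atTop k] with j hj
    rw [lp.single_apply_ne _ _ _ (by omega : j ≠ k), norm_zero]⟩

theorem sing_self (k : ℕ) (f : Alg (D k)) : ((sing k f : czero D) : Big D) k = f :=
  lp.single_apply_self _ _ _

theorem sing_ne (k : ℕ) (f : Alg (D k)) {j : ℕ} (hj : j ≠ k) :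
    ((sing k f : czero D) : Big D) j = 0 :=
  lp.single_apply_ne _ _ _ hj

theorem ext_czero {a b : czero D} (h : ∀ k, (a : Big D) k = (b : Big D) k) : a = b :=
  Subtype.ext (lp.ext (funext h))

theorem norm_le_of_coord {a : czero D} {C : ℝ} (hC : 0 ≤ C) (h : ∀ k, ‖(a : Big D) k‖ ≤ C) :
    ‖a‖ ≤ C :=
  lp.norm_le_of_forall_le hC h


theorem mul_coord (a b : czero D) (k : ℕ) :
    ((a * b : czero D) : Big D) k = (a : Big D) k * (b : Big D) k := rfl

theorem smul_coord (c : ℂ) (a : czero D) (k : ℕ) :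
    ((c • a : czero D) : Big D) k = c • (a : Big D) k := rfl

theorem sub_coord (a b : czero D) (k : ℕ) :
    ((a - b : czero D) : Big D) k = (a : Big D) k - (b : Big D) k := rfl

theorem add_coord (a b : czero D) (k : ℕ) :
    ((a + b : czero D) : Big D) k = (a : Big D) k + (b : Big D) k := rfl

theorem sum_coord {ι : Type} (t : Finset ι) (a : ι → czero D) (k : ℕ) :
    ((∑ i ∈ t, a i : czero D) : Big D) k = ∑ i ∈ t, (a i : Big D) k := by
  classical
  induction t using Finset.induction_on with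
  | empty => simp
  | insert i t hi ih =>
    rw [Finset.sum_insert hi, Finset.sum_insert hi, add_coord, ih]

/-- The point mass in the finite algebra. -/
noncomputable def pm (k : ℕ) (s : Pt (D k)) : Alg (D k) := by
  classical
  exact fun t => if t = s then 1 else 0

theorem mul_pm (k : ℕ) (s : Pt (D k)) (f : Alg (D k)) : f * pm k s = (f s) • pm k s := by
  classical
  funext t
  show f t * (if t = s then 1 else 0) = f s * (if t = s then 1 else 0)
  by_cases h : t = s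
  · rw [h]
  · rw [if_neg h, mul_zero, mul_zero]

theorem eq_sum_pm (k : ℕ) (f : Alg (D k)) : f = ∑ s : Pt (D k), (f s) • pm k s := by
  classical
  funext t
  have h : (∑ s : Pt (D k), (f s) • pm k s) t = ∑ s : Pt (D k), ((f s) • pm k s) t :=
    Finset.sum_apply t Finset.univ (fun s => ((f s) • pm k s : Pt (D k) → ℂ))
  have h2 : ∀ s : Pt (D k), ((f s) • pm k s) t = if t = s then f s else (0 : ℂ) := by
    intro s
    show f s * (if t = s then 1 else 0) = _
    by_cases h : t = s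
    · simp [h]
    · simp [h]
  have h3 : ∑ s : Pt (D k), (if t = s then f s else (0 : ℂ)) = f t := by
    rw [Finset.sum_ite_eq, if_pos (Finset.mem_univ t)]
  exact (h.trans ((Finset.sum_congr rfl fun s _ => h2 s).trans h3)).symm

/-- The idempotents of the big algebra. -/
noncomputable def idem (k : ℕ) (s : Pt (D k)) : czero D := sing k (pm k s)

theorem mul_idem (a : czero D) (k : ℕ) (s : Pt (D k)) :
    a * idem k s = (((a : Big D) k) s) • idem k s := by
  apply ext_czero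
  intro j
  rw [mul_coord, smul_coord]
  by_cases h : j = k
  · subst h
    rw [idem, sing_self]
    exact mul_pm j s _
  · rw [idem, sing_ne k _ h, mul_zero, smul_zero]

theorem sing_eq_sum (k : ℕ) (f : Alg (D k)) : sing k f = ∑ s : Pt (D k), (f s) • idem k s := by
  apply ext_czero
  intro j
  rw [sum_coord]
  by_cases h : j = k
  · subst h
    rw [sing_self]
    refine (eq_sum_pm j f).trans (Finset.sum_congr rfl fun s _ => ?_)
    rw [smul_coord, idem, sing_self]
  · rw [sing_ne k _ h]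
    refine (Finset.sum_eq_zero fun s _ => ?_).symm
    rw [smul_coord, idem, sing_ne k _ h, smul_zero]

theorem char_eval (φ : WeakDual.characterSpace ℂ (czero D)) (k : ℕ) (s : Pt (D k))
    (h : φ (idem k s) ≠ 0) (a : czero D) : φ a = ((a : Big D) k) s := by
  have h1 : φ (a * idem k s) = φ a * φ (idem k s) := map_mul φ _ _
  rw [mul_idem, map_smul, smul_eq_mul] at h1
  exact (mul_right_cancel₀ h h1).symm

theorem char_exists (φ : WeakDual.characterSpace ℂ (czero D)) :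
    ∃ (k : ℕ) (s : Pt (D k)), φ (idem k s) ≠ 0 := by
  by_contra hcon
  push Not at hcon
  have hsing : ∀ (k : ℕ) (f : Alg (D k)), φ (sing k f) = 0 := by
    intro k f
    rw [sing_eq_sum, map_sum]
    refine Finset.sum_eq_zero fun s _ => ?_
    rw [map_smul, hcon k s, smul_zero]
  apply φ.2.1
  apply ContinuousLinearMap.ext
  intro a
  show (WeakDual.CharacterSpace.toCLM φ) a = 0
  set L := WeakDual.CharacterSpace.toCLM φ with hL
  have hbound : ∀ ε : ℝ, 0 < ε → ‖L a‖ ≤ ‖L‖ * ε := by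
    intro ε hε
    have ha : Tendsto (fun k => ‖(a : Big D) k‖) atTop (𝓝 0) := a.2
    obtain ⟨n, hn⟩ := (Metric.tendsto_atTop.mp ha) ε hε
    let b : czero D := ∑ k ∈ Finset.range n, sing k ((a : Big D) k)
    have hb : L b = 0 := by
      show φ b = 0
      rw [map_sum]
      exact Finset.sum_eq_zero fun k _ => hsing k _
    have hbc : ∀ j, (b : Big D) j = if j < n then (a : Big D) j else 0 := by
      intro j
      show ((∑ k ∈ Finset.range n, sing k ((a : Big D) k) : czero D) : Big D) j = _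
      rw [sum_coord]
      by_cases h : j < n
      · rw [if_pos h, Finset.sum_eq_single j]
        · exact sing_self _ _
        · intro k _ hk
          exact sing_ne _ _ hk.symm
        · intro hh
          exact absurd (Finset.mem_range.mpr h) hh
      · rw [if_neg h]
        refine Finset.sum_eq_zero fun k hk => ?_
        have := Finset.mem_range.mp hk
        exact sing_ne _ _ (by omega)
    have h2 : ‖a - b‖ ≤ ε := by
      apply norm_le_of_coord hε.le
      intro j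
      rw [sub_coord, hbc]
      by_cases h : j < n
      · rw [if_pos h, sub_self, norm_zero]
        exact hε.le
      · rw [if_neg h, sub_zero]
        have h3 := hn j (by omega)
        rw [Real.dist_eq, sub_zero, abs_of_nonneg (norm_nonneg _)] at h3
        exact h3.le
    calc ‖L a‖ = ‖L (a - b)‖ := by rw [map_sub, hb, sub_zero]
      _ ≤ ‖L‖ * ‖a - b‖ := L.le_opNorm _
      _ ≤ ‖L‖ * ε := mul_le_mul_of_nonneg_left h2 (norm_nonneg _)
  have hlim : ‖L a‖ ≤ 0 := by
    have ht : Tendsto (fun ε : ℝ => ‖L‖ * ε) (𝓝[>] 0) (𝓝 (‖L‖ * 0)) :=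
      ((continuous_const.mul continuous_id).tendsto 0).mono_left nhdsWithin_le_nhds
    rw [mul_zero] at ht
    refine ge_of_tendsto ht ?_
    filter_upwards [self_mem_nhdsWithin] with ε hε
    exact hbound ε hε
  exact norm_le_zero_iff.mp hlim

theorem char_unique (φ ψ : WeakDual.characterSpace ℂ (czero D)) (k : ℕ) (s : Pt (D k))
    (h1 : φ (idem k s) ≠ 0) (h2 : ψ (idem k s) ≠ 0) : ψ = φ := by
  apply WeakDual.CharacterSpace.ext
  intro a
  rw [char_eval φ k s h1, char_eval ψ k s h2]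

theorem discrete_char : DiscreteTopology (WeakDual.characterSpace ℂ (czero D)) := by
  rw [discreteTopology_iff_isOpen_singleton]
  intro φ
  obtain ⟨k, s, h⟩ := char_exists φ
  have h1 : ({φ} : Set (WeakDual.characterSpace ℂ (czero D))) =
      (fun ψ : WeakDual.characterSpace ℂ (czero D) => ψ (idem k s)) ⁻¹' {0}ᶜ := by
    ext ψ
    simp only [Set.mem_singleton_iff, Set.mem_preimage, Set.mem_compl_iff]
    constructor
    · intro h3
      rw [h3]
      exact h
    · intro h3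
      exact char_unique φ ψ k s h h3
  rw [h1]
  apply IsOpen.preimage _ isOpen_compl_singleton
  exact (WeakDual.eval_continuous (idem k s)).comp continuous_subtype_val

theorem regular_char (F : Set (WeakDual.characterSpace ℂ (czero D)))
    (φ₀ : WeakDual.characterSpace ℂ (czero D)) (h : φ₀ ∉ F) :
    ∃ a : czero D, (∀ φ ∈ F, φ a = 0) ∧ φ₀ a ≠ 0 := by
  obtain ⟨k, s, hks⟩ := char_exists φ₀
  refine ⟨idem k s, ?_, hks⟩
  intro φ hφ
  by_contra h3
  have := char_unique φ₀ φ k s hks h3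
  rw [this] at hφ
  exact h hφ

theorem pairs_czero (a₁ a₂ : czero D) : ∃ b c₁ c₂ : czero D, a₁ = b * c₁ ∧ a₂ = b * c₂ ∧
    ‖b‖ * ‖c₁‖ ≤ 8 * ‖a₁‖ ∧ ‖b‖ * ‖c₂‖ ≤ 8 * ‖a₂‖ := by
  have hex : ∀ k, ∃ b c₁ c₂ : Alg (D k), ‖b‖ ≤ 2 ∧ (a₁ : Big D) k = b * c₁ ∧
      (a₂ : Big D) k = b * c₂ ∧ ‖c₁‖ ≤ 4 * ‖(a₁ : Big D) k‖ ∧ ‖c₂‖ ≤ 4 * ‖(a₂ : Big D) k‖ :=
    fun k => pair_factor (D := D k) ((a₁ : Big D) k) ((a₂ : Big D) k)
  choose b' d₁ d₂ hb' he₁ he₂ hd₁ hd₂ using hex
  let τ : ℕ → ℝ := fun k => max (‖(a₁ : Big D) k‖ / ‖a₁‖) (‖(a₂ : Big D) k‖ / ‖a₂‖)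
  have hτ0 : ∀ k, 0 ≤ τ k := fun k => (by positivity : 0 ≤ ‖(a₁ : Big D) k‖ / ‖a₁‖).trans
    (le_max_left _ _)
  have hτ1 : ∀ k, τ k ≤ 1 := fun k => max_le (div_le_one_of_le₀ (norm_coord_le a₁ k)
    (norm_nonneg _)) (div_le_one_of_le₀ (norm_coord_le a₂ k) (norm_nonneg _))
  have hτlim : Tendsto τ atTop (𝓝 0) := by
    have h1 : Tendsto (fun k => ‖(a₁ : Big D) k‖) atTop (𝓝 0) := a₁.2
    have h2 : Tendsto (fun k => ‖(a₂ : Big D) k‖) atTop (𝓝 0) := a₂.2
    have h3 := (h1.div_const ‖a₁‖).max (h2.div_const ‖a₂‖)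
    rwa [zero_div, zero_div, max_self] at h3
  have hle : ∀ (a : czero D) (k : ℕ), ‖(a : Big D) k‖ / ‖a‖ ≤ τ k →
      ‖(a : Big D) k‖ ≤ τ k * ‖a‖ := by
    intro a k h
    rcases (norm_nonneg a).eq_or_lt with h0 | h0
    · have := norm_coord_le a k
      rw [← h0] at this ⊢
      rw [mul_zero]
      exact this
    · rwa [div_le_iff₀ h0] at h
  have hle₁ : ∀ k, ‖(a₁ : Big D) k‖ ≤ τ k * ‖a₁‖ := fun k => hle a₁ k (le_max_left _ _)
  have hle₂ : ∀ k, ‖(a₂ : Big D) k‖ ≤ τ k * ‖a₂‖ := fun k => hle a₂ k (le_max_right _ _)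
  let σ : ℕ → ℝ := fun k => Real.sqrt (τ k)
  have hσ0 : ∀ k, 0 ≤ σ k := fun k => Real.sqrt_nonneg _
  have hσ1 : ∀ k, σ k ≤ 1 := fun k => by
    have := Real.sqrt_le_sqrt (hτ1 k)
    rwa [Real.sqrt_one] at this
  have hσlim : Tendsto σ atTop (𝓝 0) := by
    have := (Real.continuous_sqrt.tendsto 0).comp hτlim
    rwa [Real.sqrt_zero] at this
  have hσsq : ∀ k, σ k * σ k = τ k := fun k => Real.mul_self_sqrt (hτ0 k)
  -- the factors
  have hbn : ∀ k, ‖((σ k : ℂ) • b' k : Alg (D k))‖ ≤ 2 * σ k := by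
    intro k
    rw [norm_smul, Complex.norm_real, Real.norm_of_nonneg (hσ0 k)]
    nlinarith [hb' k, hσ0 k]
  have hcn : ∀ (a : czero D) (d : ∀ k, Alg (D k)), (∀ k, ‖d k‖ ≤ 4 * ‖(a : Big D) k‖) →
      (∀ k, ‖(a : Big D) k‖ ≤ τ k * ‖a‖) → ∀ k,
      ‖(((σ k)⁻¹ : ℝ) : ℂ) • d k‖ ≤ 4 * ‖a‖ * σ k := by
    intro a d hd ha k
    rw [norm_smul, Complex.norm_real, Real.norm_of_nonneg (inv_nonneg.mpr (hσ0 k))]
    calc (σ k)⁻¹ * ‖d k‖ ≤ (σ k)⁻¹ * (4 * (τ k * ‖a‖)) :=
          mul_le_mul_of_nonneg_left ((hd k).trans (by linarith [ha k])) (inv_nonneg.mpr (hσ0 k))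
      _ = 4 * ‖a‖ * ((σ k)⁻¹ * (σ k * σ k)) := by rw [hσsq]; ring
      _ ≤ 4 * ‖a‖ * σ k := by
          refine mul_le_mul_of_nonneg_left ?_ (by positivity)
          rcases (hσ0 k).eq_or_lt with h0 | h0
          · rw [← h0]; simp
          · rw [← mul_assoc, inv_mul_cancel₀ h0.ne', one_mul]
  have hmk : ∀ (x : ∀ k, Alg (D k)) (C : ℝ), (∀ k, ‖x k‖ ≤ C * σ k) →
      ∃ y : czero D, ∀ k, (y : Big D) k = x k := by
    intro x C hx
    have hC0 : ∀ k, ‖x k‖ ≤ |C| * σ k := fun k =>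
      (hx k).trans (mul_le_mul_of_nonneg_right (le_abs_self C) (hσ0 k))
    have hmem : Memℓp x ∞ := by
      apply memℓp_infty
      refine ⟨|C|, ?_⟩
      rintro _ ⟨k, rfl⟩
      exact (hC0 k).trans (mul_le_of_le_one_right (abs_nonneg C) (hσ1 k))
    refine ⟨⟨⟨x, hmem⟩, ?_⟩, fun k => rfl⟩
    have h3 := hσlim.const_mul |C|
    rw [mul_zero] at h3
    exact squeeze_zero (fun k => norm_nonneg _) hC0 h3
  obtain ⟨b, hb⟩ := hmk (fun k => (σ k : ℂ) • b' k) 2 hbn
  obtain ⟨c₁, hc₁⟩ := hmk (fun k => (((σ k)⁻¹ : ℝ) : ℂ) • d₁ k) (4 * ‖a₁‖)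
    (hcn a₁ d₁ hd₁ hle₁)
  obtain ⟨c₂, hc₂⟩ := hmk (fun k => (((σ k)⁻¹ : ℝ) : ℂ) • d₂ k) (4 * ‖a₂‖)
    (hcn a₂ d₂ hd₂ hle₂)
  have hnb : ‖b‖ ≤ 2 := by
    apply norm_le_of_coord (by norm_num)
    intro k
    rw [hb]
    exact (hbn k).trans (by linarith [hσ1 k])
  have hnc : ∀ (a c : czero D), (∀ k, ‖(c : Big D) k‖ ≤ 4 * ‖a‖ * σ k) → ‖c‖ ≤ 4 * ‖a‖ := by
    intro a c h
    apply norm_le_of_coord (by positivity)
    intro k
    exact (h k).trans (mul_le_of_le_one_right (by positivity) (hσ1 k))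
  have heq : ∀ (a c : czero D) (d : ∀ k, Alg (D k)), (∀ k, (a : Big D) k = b' k * d k) →
      (∀ k, (c : Big D) k = (((σ k)⁻¹ : ℝ) : ℂ) • d k) →
      (∀ k, ‖(a : Big D) k‖ ≤ τ k * ‖a‖) → a = b * c := by
    intro a c d h1 h2 h3
    apply ext_czero
    intro k
    rw [mul_coord, hb, h2]
    rcases (hσ0 k).eq_or_lt with h0 | h0
    · have h4 : τ k = 0 := by rw [← hσsq, ← h0, mul_zero]
      have h5 := h3 k
      rw [h4, zero_mul] at h5
      rw [norm_le_zero_iff.mp h5, ← h0]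
      simp
    · rw [smul_mul_smul_comm, h1]
      have h6 : ((σ k : ℝ) : ℂ) * (((σ k)⁻¹ : ℝ) : ℂ) = 1 := by
        rw [← Complex.ofReal_mul, mul_inv_cancel₀ h0.ne', Complex.ofReal_one]
      rw [h6, one_smul]
  refine ⟨b, c₁, c₂, heq a₁ c₁ d₁ he₁ hc₁ hle₁, heq a₂ c₂ d₂ he₂ hc₂ hle₂, ?_, ?_⟩
  · have h1 : ‖c₁‖ ≤ 4 * ‖a₁‖ := hnc a₁ c₁ fun k => by rw [hc₁]; exact hcn a₁ d₁ hd₁ hle₁ k
    calc ‖b‖ * ‖c₁‖ ≤ 2 * (4 * ‖a₁‖) := mul_le_mul hnb h1 (norm_nonneg _) (by norm_num)
      _ = _ := by ring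
  · have h1 : ‖c₂‖ ≤ 4 * ‖a₂‖ := hnc a₂ c₂ fun k => by rw [hc₂]; exact hcn a₂ d₂ hd₂ hle₂ k
    calc ‖b‖ * ‖c₂‖ ≤ 2 * (4 * ‖a₂‖) := mul_le_mul hnb h1 (norm_nonneg _) (by norm_num)
      _ = _ := by ring

theorem no_bai_aux {ι : Type*} {l : Filter ι} [l.NeBot] (e : ι → czero D) (C : ℝ)
    (hC : ∀ i, ‖e i‖ ≤ C) (he : ∀ a, Tendsto (fun i => ‖a - e i * a‖) l (𝓝 0)) (k : ℕ) :
    (D k).K ≤ C := by
  have h1 := he (sing k 1)
  have h2 : ∀ i, (D k).K ≤ C + ‖sing k (1 : Alg (D k)) - e i * sing k 1‖ := by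
    intro i
    have h3 := norm_coord_le (sing k (1 : Alg (D k)) - e i * sing k 1) k
    rw [sub_coord, mul_coord, sing_self, mul_one] at h3
    have h4 : (D k).K ≤ ‖(1 : Alg (D k))‖ := K_le_N_one
    have h5 : ‖(1 : Alg (D k))‖ ≤ ‖(1 : Alg (D k)) - (e i : Big D) k‖ + ‖(e i : Big D) k‖ := by
      calc ‖(1 : Alg (D k))‖ = ‖((1 : Alg (D k)) - (e i : Big D) k) + (e i : Big D) k‖ := by
            rw [sub_add_cancel]
        _ ≤ _ := norm_add_le _ _
    have h6 := norm_coord_le (e i) k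
    linarith [hC i]
  have h3 := (tendsto_const_nhds (x := C)).add h1
  rw [add_zero] at h3
  exact ge_of_tendsto' h3 h2

end CZero

/-- (F-pairs): one `M` such that, for `n = 1` and `n = 2`, any `a 0, ..., a (n-1)` have a common
factor `b` with cofactors `c i`, and `‖b‖ * ‖c i‖ ≤ M * ‖a i‖` for each `i`. -/
def FactorsPairs (A : Type) [NonUnitalNormedCommRing A] : Prop :=
  ∃ M : ℝ, 1 ≤ M ∧ ∀ n : ℕ, n = 1 ∨ n = 2 → ∀ a : Fin n → A,
    ∃ (b : A) (c : Fin n → A), ∀ i, a i = b * c i ∧ ‖b‖ * ‖c i‖ ≤ M * ‖a i‖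

/-- (F-sums): one `M` such that every `a` is `b₁ * c₁ + b₂ * c₂` with
`‖b₁‖ * ‖c₁‖ + ‖b₂‖ * ‖c₂‖ ≤ M * ‖a‖`. -/
def FactorsSums (A : Type) [NonUnitalNormedCommRing A] : Prop :=
  ∃ M : ℝ, 1 ≤ M ∧ ∀ a : A, ∃ b₁ c₁ b₂ c₂ : A, a = b₁ * c₁ + b₂ * c₂ ∧
    ‖b₁‖ * ‖c₁‖ + ‖b₂‖ * ‖c₂‖ ≤ M * ‖a‖

universe u

/-- (BAI): a bounded net `e` with `‖a - e i * a‖ → 0` for every `a`. -/
def HasBAI (A : Type) [NonUnitalNormedCommRing A] : Prop :=
  ∃ (ι : Type u) (_ : Preorder ι) (_ : Nonempty ι) (_ : IsDirected ι (· ≤ ·)) (e : ι → A) (C : ℝ),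
    (∀ i, ‖e i‖ ≤ C) ∧ ∀ a : A, Filter.Tendsto (fun i => ‖a - e i * a‖) Filter.atTop (nhds 0)

/-- The maximal ideal space (nonzero continuous multiplicative linear functionals, weak-star
topology; continuity is automatic on a Banach algebra) is discrete. -/
def DiscreteSpectrum (A : Type) [NonUnitalNormedCommRing A] [NormedSpace ℂ A] : Prop :=
  DiscreteTopology (WeakDual.characterSpace ℂ A)

/-- Complete regularity: for closed `F` in the maximal ideal space and `φ₀` outside `F` some `a` has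
Gelfand transform zero on `F` and nonzero at `φ₀`. -/
def CompletelyRegular (A : Type) [NonUnitalNormedCommRing A] [NormedSpace ℂ A] : Prop :=
  ∀ F : Set (WeakDual.characterSpace ℂ A), IsClosed F →
    ∀ φ₀ : WeakDual.characterSpace ℂ A, φ₀ ∉ F → ∃ a : A, (∀ φ ∈ F, φ a = 0) ∧ φ₀ a ≠ 0

/-- There is a commutative, completely regular complex Banach algebra with discrete maximal ideal
space that satisfies (F-pairs) and (F-sums) but has no bounded approximate identity. -/
theorem result : ∃ (A : Type) (_ : NonUnitalNormedCommRing A) (_ : NormedSpace ℂ A)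
    (_ : IsScalarTower ℂ A A) (_ : SMulCommClass ℂ A A) (_ : CompleteSpace A),
    CompletelyRegular A ∧ DiscreteSpectrum A ∧ FactorsPairs A ∧ FactorsSums A ∧
      ¬ HasBAI.{u} A := by
  choose D hD using fun k : ℕ => exists_data (k + 2) (by omega)
  refine ⟨czero D, inferInstance, inferInstance, inferInstance, inferInstance, inferInstance,
    fun F _ φ₀ h => regular_char F φ₀ h, discrete_char, ⟨8, by norm_num, ?_⟩,
    ⟨8, by norm_num, ?_⟩, ?_⟩
  · intro n hn a
    rcases hn with rfl | rfl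
    · obtain ⟨b, c, _, h1, _, h2, _⟩ := pairs_czero (a 0) (a 0)
      refine ⟨b, fun _ => c, fun i => ?_⟩
      rw [Subsingleton.elim i 0]
      exact ⟨h1, h2⟩
    · obtain ⟨b, c₁, c₂, h1, h2, h3, h4⟩ := pairs_czero (a 0) (a 1)
      refine ⟨b, ![c₁, c₂], fun i => ?_⟩
      fin_cases i
      · exact ⟨h1, h3⟩
      · exact ⟨h2, h4⟩
  · intro a
    obtain ⟨b, c, _, h1, _, h2, _⟩ := pairs_czero a a
    refine ⟨b, c, 0, 0, ?_, ?_⟩
    · rw [mul_zero, add_zero]
      exact h1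
    · rw [norm_zero, mul_zero, add_zero]
      exact h2
  · rintro ⟨ι, _, _, _, e, C, hC, he⟩
    have h1 : ∀ k, (D k).K ≤ C := fun k => no_bai_aux (l := Filter.atTop) e C hC he k
    obtain ⟨k, hk⟩ := pow_unbounded_of_one_lt C (by norm_num : (1 : ℝ) < 2)
    have h2 := h1 k
    rw [hD] at h2
    have h3 : (2 : ℝ) ^ k ≤ 2 ^ (k + 2) := pow_le_pow_right₀ (by norm_num) (by omega)
    linarith

end Pool.Agent.Results.MP_93ce62_an.PairsNoBAI
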